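import Pool.Agent.C4F.StmtsM

/-!
# Squad C4F, row ENC: the matrix word is the adjacency matrix of the graph of the reduction
-/

set_option autoImplicit false

namespace Pool.Agent.C4F.H34

open Pool.Agent.C4F

/-- look-up in a concatenation of blocks of equal length -/
theorem blk {α β : Type} (f : β → List α) (L : ℕ) (cs : List β) (hL : ∀ x ∈ cs, (f x).length = L)
    (x t : ℕ) (hx : x < cs.length) (ht : t < L) :
    (cs.flatMap f)[x * L + t]? = (f cs[x])[t]? := by
  induction cs generalizing x with
  | nil => simp at hx
  | cons c cs ih =>
    rw [List.flatMap_cons]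
    have h1 : (f c).length = L := hL c (by simp)
    cases x with
    | zero =>
      rw [List.getElem?_append_left (by omega)]
      simp
    | succ x =>
      rw [List.getElem?_append_right (by rw [h1, Nat.succ_mul]; omega)]
      have h2 : (x + 1) * L + t - (f c).length = x * L + t := by
        rw [h1, Nat.succ_mul]; omega
      rw [h2, ih (fun y hy => hL y (by simp [hy])) x (by simpa using hx)]
      simp

theorem count_en (b : ℕ) : (en b).count Lt.bar = 2 ^ b := by
  unfold en
  generalize 2 ^ b = n
  induction n with
  | zero => simp
  | succ n ih =>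
    rw [List.range_succ, List.flatMap_append, List.count_append, ih]
    have h : List.count Lt.bar
        ((List.range b).map fun t => if n.testBit (b - 1 - t) then Lt.pos else Lt.neg) = 0 := by
      rw [List.count_eq_zero]
      intro h
      rw [List.mem_map] at h
      obtain ⟨t, -, ht⟩ := h
      split_ifs at ht
    simp [List.count_append, h]

theorem bw_eq (w : Fin 6 → List Lt) (hw : w 5 = en (dat w).W) (x : ℕ) (hx : x < 2 ^ (dat w).W)
    (t : ℕ) : bw w x t = (dat w).bt x t := by
  unfold bw Dat.bt
  by_cases ht : t < (dat w).W
  · have h1 : (w 5)[x * ((dat w).W + 1) + t]? =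
        some (if x.testBit ((dat w).W - 1 - t) then Lt.pos else Lt.neg) := by
      rw [hw]
      generalize (dat w).W = b at hx ht
      unfold en
      rw [blk _ (b + 1) (List.range (2 ^ b)) (by intro y _; simp) x t (by simpa using hx) (by omega)]
      rw [List.getElem?_append_left (by simpa using ht)]
      simp [ht]
    rw [h1]
    cases h : x.testBit ((dat w).W - 1 - t) <;> simp
  · simp [ht]

theorem adj_congr (D : Dat) (β β' : ℕ → ℕ → Bool) (i x j y : ℕ) (hx : ∀ t, β x t = β' x t)
    (hy : ∀ t, β y t = β' y t) : D.adj β i x j y ↔ D.adj β' i x j y := by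
  simp only [Dat.adj, Dat.Bad, Dat.E, Dat.Gt, hx, hy]

theorem range_mul {α : Type} (k M : ℕ) (h : ℕ → List α) :
    (List.range (k * M)).flatMap h =
      (List.range k).flatMap fun i => (List.range M).flatMap fun x => h (i * M + x) := by
  induction k with
  | zero => simp
  | succ k ih =>
    rw [Nat.succ_mul, List.range_add, List.flatMap_append, ih, List.range_succ,
      List.flatMap_append, List.flatMap_map]
    simp

theorem finRange_flatMap {α : Type} (N : ℕ) (h : ℕ → List α) :
    (List.finRange N).flatMap (fun u : Fin N => h (u : ℕ)) = (List.range N).flatMap h := by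
  rw [← List.map_coe_finRange_eq_range, List.flatMap_map]

theorem finRange_map {α : Type} (N : ℕ) (h : ℕ → α) :
    (List.finRange N).map (fun u : Fin N => h (u : ℕ)) = (List.range N).flatMap fun v => [h v] := by
  rw [← finRange_flatMap N (fun v => [h v])]
  exact (List.flatMap_pure_eq_map (fun u : Fin N => h (u : ℕ)) (List.finRange N)).symm

open Classical in
theorem enc : EncStmt := by
  intro w hf hw
  have hM : (w 5).count Lt.bar = 2 ^ (dat w).W := by rw [hw]; exact count_en _
  have hpos : 0 < 2 ^ (dat w).W := Nat.pos_of_ne_zero (by positivity)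
  unfold encGraph mxw
  rw [hM]
  have hk : (w 1).length = (dat w).k := rfl
  rw [hk]
  set D := dat w with hD
  set M := 2 ^ D.W with hMd
  have e1 : ((List.finRange (D.k * M)).flatMap fun i => (List.finRange (D.k * M)).map fun j =>
      decide (D.gr.Adj i j)) = (List.range D.k).flatMap fun i => (List.range M).flatMap fun x =>
        (List.range D.k).flatMap fun j => (List.range M).flatMap fun y =>
          [decide (D.adj D.bt i x j y)] := by
    have : ∀ u v : Fin (D.k * M), decide (D.gr.Adj u v) =
        decide (D.adj D.bt (u / M) (u % M) (v / M) (v % M)) := fun u v => rfl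
    simp only [this]
    rw [finRange_flatMap (D.k * M) (fun u => (List.finRange (D.k * M)).map fun j : Fin (D.k * M) =>
      decide (D.adj D.bt (u / M) (u % M) (j / M) (j % M))), range_mul]
    apply List.flatMap_congr
    intro i _
    apply List.flatMap_congr
    intro x hx
    rw [List.mem_range] at hx
    rw [finRange_map (D.k * M) (fun j => decide (D.adj D.bt ((i * M + x) / M) ((i * M + x) % M)
      (j / M) (j % M))), range_mul]
    apply List.flatMap_congr
    intro j _
    apply List.flatMap_congr
    intro y hy
    rw [List.mem_range] at hy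
    have a1 : (i * M + x) / M = i := by
      rw [Nat.mul_comm, Nat.mul_add_div hpos, Nat.div_eq_of_lt hx]; rfl
    have a2 : (i * M + x) % M = x := by
      rw [Nat.mul_comm, Nat.mul_add_mod, Nat.mod_eq_of_lt hx]
    have a3 : (j * M + y) / M = j := by
      rw [Nat.mul_comm, Nat.mul_add_div hpos, Nat.div_eq_of_lt hy]; rfl
    have a4 : (j * M + y) % M = y := by
      rw [Nat.mul_comm, Nat.mul_add_mod, Nat.mod_eq_of_lt hy]
    rw [a1, a2, a3, a4]
  refine Eq.trans ?_ e1.symm
  simp only [List.map_flatMap]
  apply List.flatMap_congr
  intro i _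
  apply List.flatMap_congr
  intro x hx
  apply List.flatMap_congr
  intro j _
  apply List.flatMap_congr
  intro y hy
  rw [List.mem_range] at hx hy
  have h := adj_congr D (bw w) D.bt i x j y (bw_eq w hw x hx) (bw_eq w hw y hy)
  by_cases hh : D.adj D.bt i x j y
  · rw [if_pos (h.2 hh)]
    simp [hh]
  · rw [if_neg (fun h' => hh (h.1 h'))]
    simp [hh]

end Pool.Agent.C4F.H34
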