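import Pool.Agent.Helper34_C4F.ENC

/-!
# Squad C4F, row SAT: the data of the six words of a formula
-/

set_option autoImplicit false

namespace Pool.Agent.C4F.H34

open Pool.Agent.C4F

theorem cn_lt (P : ℕ → Prop) (n a : ℕ) (ha : a ≤ n) (h : ∀ v < n, (P v ↔ v < a)) :
    cn P n = a := by
  classical
  unfold cn
  rw [Nat.count_eq_card_filter_range]
  have : (Finset.range n).filter P = Finset.range a := by
    ext v
    simp only [Finset.mem_filter, Finset.mem_range]
    constructor
    · rintro ⟨h1, h2⟩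
      exact (h v h1).1 h2
    · intro h1
      exact ⟨by omega, (h v (by omega)).2 h1⟩
  have h2 : (Finset.range a).card = a := Finset.card_range a
  rw [← h2, ← this]

/-- the row of a literal -/
def row {n : ℕ} (x : Fin n × Bool) : List Lt :=
  (List.range n).map fun v => if v = (x.1 : ℕ) then (if x.2 then Lt.pos else Lt.neg) else Lt.tick

theorem row_length {n : ℕ} (x : Fin n × Bool) : (row x).length = n := by simp [row]

theorem row_get {n : ℕ} (x : Fin n × Bool) (u : ℕ) (hu : u < n) :
    (row x)[u]? = some (if u = (x.1 : ℕ) then (if x.2 then Lt.pos else Lt.neg) else Lt.tick) := by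
  simp [row, hu]

theorem tab_get (φ : CNF3) (c : ℕ) (hc : c < φ.clauses.length) (l : ℕ) (hl : l < 3) (u : ℕ)
    (hu : u < φ.n) :
    (tab φ)[(3 * c + l) * φ.n + u]? = (row (φ.clauses[c] ⟨l, hl⟩))[u]? := by
  have h0 : tab φ = φ.clauses.flatMap fun c => (List.finRange 3).flatMap fun l => row (c l) := rfl
  rw [h0]
  have h1 : (3 * c + l) * φ.n + u = c * (3 * φ.n) + (l * φ.n + u) := by ring
  have h2 : l * φ.n + u < 3 * φ.n := by
    have : l * φ.n ≤ 2 * φ.n := Nat.mul_le_mul_right _ (by omega)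
    omega
  rw [h1, blk _ (3 * φ.n) φ.clauses (by
    intro x _
    simp [row_length, List.finRange]
    try omega) c (l * φ.n + u) hc h2]
  rw [blk (fun l => row (φ.clauses[c] l)) φ.n (List.finRange 3) (fun x _ => row_length _) l u
    (by simpa using hl) hu]
  simp

theorem sat : SatStmt := by
  intro q k φ
  have hq : (dat (wd q k φ)).q = q := by simp [dat, wd]
  have hk : (dat (wd q k φ)).k = k := by simp [dat, wd]
  have hn : (dat (wd q k φ)).n = φ.n := by simp [dat, wd]
  have hm : (dat (wd q k φ)).m = φ.clauses.length := by simp [dat, wd]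
  have w2 : ((wd q k φ) 2).length = φ.n := by simp [wd]
  have w4 : (wd q k φ) 4 = tab φ := rfl
  have key : ∀ (c : ℕ) (hc : c < φ.clauses.length) (l : ℕ) (hl : l < 3),
      (dat (wd q k φ)).vr (3 * c + l) = ((φ.clauses[c] ⟨l, hl⟩).1 : ℕ) ∧
      (dat (wd q k φ)).sg (3 * c + l) = (φ.clauses[c] ⟨l, hl⟩).2 := by
    intro c hc l hl
    set x := φ.clauses[c] ⟨l, hl⟩ with hx
    have hg : ∀ u < φ.n, (tab φ)[(3 * c + l) * φ.n + u]? =
        some (if u = (x.1 : ℕ) then (if x.2 then Lt.pos else Lt.neg) else Lt.tick) := by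
      intro u hu
      rw [tab_get φ c hc l hl u hu, row_get _ u hu]
    have hcn : cn (fun v => ∀ u < v + 1, (tab φ)[(3 * c + l) * φ.n + u]? = some Lt.tick) φ.n =
        (x.1 : ℕ) := by
      apply cn_lt _ _ _ (le_of_lt x.1.2)
      intro v hv
      constructor
      · intro h
        by_contra h'
        have h1 := h (x.1 : ℕ) (by omega)
        rw [hg _ x.1.2] at h1
        rw [if_pos rfl] at h1
        cases h2 : x.2 <;> simp [h2] at h1
      · intro h u hu
        rw [hg u (by omega), if_neg (by omega)]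
    have h1 : (dat (wd q k φ)).vr (3 * c + l) = (x.1 : ℕ) := by
      show cn (fun v => ∀ u < v + 1, ((wd q k φ) 4)[(3 * c + l) * ((wd q k φ) 2).length + u]? =
        some Lt.tick) ((wd q k φ) 2).length = (x.1 : ℕ)
      rw [w2, w4]
      exact hcn
    refine ⟨h1, ?_⟩
    show decide (((wd q k φ) 4)[(3 * c + l) * ((wd q k φ) 2).length +
      cn (fun v => ∀ u < v + 1, ((wd q k φ) 4)[(3 * c + l) * ((wd q k φ) 2).length + u]? =
        some Lt.tick) ((wd q k φ) 2).length]? = some Lt.pos) = x.2
    rw [w2, w4, hcn, hg _ x.1.2, if_pos rfl]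
    cases x.2 <;> simp
  refine ⟨?_, hq, hk, hn, hm, ?_, ?_⟩
  · intro i hi
    fin_cases i
    · simp [wd]
    · simp [wd]
    · simp [wd]
    · simp [wd]
    · show Lt.bar ∉ tab φ
      unfold tab
      intro h
      rw [List.mem_flatMap] at h
      obtain ⟨c, -, h⟩ := h
      rw [List.mem_flatMap] at h
      obtain ⟨l, -, h⟩ := h
      rw [List.mem_map] at h
      obtain ⟨v, -, h⟩ := h
      split_ifs at h
    · exact absurd rfl hi
  · intro s hs
    have h1 := (key (s / 3) (by omega) (s % 3) (by omega)).1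
    have h2 : 3 * (s / 3) + s % 3 = s := by omega
    rw [h2] at h1
    rw [h1]
    exact Fin.is_lt _
  · unfold Dat.Sat CNF3.Sat
    rw [hm]
    constructor
    · rintro ⟨σ, hσ⟩
      refine ⟨fun v => σ v, ?_⟩
      intro cl hcl
      obtain ⟨c, hc, rfl⟩ := List.getElem_of_mem hcl
      obtain ⟨l, hl, h⟩ := hσ c hc
      refine ⟨⟨l, hl⟩, ?_⟩
      rw [(key c hc l hl).1, (key c hc l hl).2] at h
      exact h
    · rintro ⟨σ, hσ⟩
      refine ⟨fun v => if h : v < φ.n then σ ⟨v, h⟩ else false, ?_⟩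
      intro c hc
      obtain ⟨j, hj⟩ := hσ _ (List.getElem_mem hc)
      refine ⟨j, j.2, ?_⟩
      rw [(key c hc j j.2).1, (key c hc j j.2).2]
      show (if h : ((φ.clauses[c] j).1 : ℕ) < φ.n then σ ⟨_, h⟩ else false) = _
      rw [dif_pos (Fin.is_lt _)]
      exact hj

end Pool.Agent.C4F.H34
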